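import Pool.Agent.Helper53.Comp.GoalsG
import Pool.Agent.Helper94.Mono.CellSum

/-! Packet G11: from simplices to faces. -/

namespace Mono

namespace Comp

open Finset C94

namespace G11

variable {n : ℕ}

/-- The double counting of `cellSum`, with arbitrary conditions. -/
theorem sum_cells (h : CellVol) {A Z : Finset (Fin n → ℤ)} {b : Fin n → ℝ} {Φ : Fan n}
    (hT : Tri A Z Φ) (hB : BFan A Z b Φ) (hb : ∀ i, 0 < b i) (K : Finset (Fin n))
    (P Q : Finset (Fin n → ℤ) → Prop) [DecidablePred P] [DecidablePred Q]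
    (hPQ : ∀ φ ∈ cellsS A K b, ∀ τ, Φ.IsFace τ → τ ∩ Z = eK K → τ \ Z ⊆ φ →
      (τ \ Z).card = dimF (projS K φ) + 1 → dimF (projS K φ) + 1 = (cs (projS K φ)).card →
      (P φ ↔ Q τ)) :
    ∑ φ ∈ (cellsS A K b).filter (fun φ => dimF (projS K φ) + 1 = (cs (projS K φ)).card ∧ P φ),
      (-1 : ℤ) ^ dimF (projS K φ) * nvol (projS K φ) =
    ∑ τ ∈ Φ.faces.filter (fun τ => τ ∩ Z = eK K ∧ ¬ τ ⊆ Z ∧ τ.card = (cs τ).card ∧ Q τ),
      (-1 : ℤ) ^ ((τ \ Z).card - 1) * (volZ Z τ : ℤ) := by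
  classical
  have hL : ∑ φ ∈ (cellsS A K b).filter (fun φ => dimF (projS K φ) + 1 = (cs (projS K φ)).card ∧
      P φ), (-1 : ℤ) ^ dimF (projS K φ) * nvol (projS K φ) =
      ∑ φ ∈ (cellsS A K b).filter (fun φ => dimF (projS K φ) + 1 = (cs (projS K φ)).card ∧
      P φ), ∑ ρ ∈ Φ.faces.filter (fun ρ => ρ ∩ Z = eK K ∧ ρ \ Z ⊆ φ ∧
    (ρ \ Z).card = dimF (projS K φ) + 1), (-1 : ℤ) ^ ((ρ \ Z).card - 1) * (volZ Z ρ : ℤ) := by
    refine Finset.sum_congr rfl fun φ hφ => ?_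
    rw [h n A Z b Φ hT hB hb K φ (Finset.mem_filter.1 hφ).1, Finset.mul_sum]
    refine Finset.sum_congr rfl fun ρ hρ => ?_
    rw [(Finset.mem_filter.1 hρ).2.2.2, Nat.add_sub_cancel]
  rw [hL]
  rw [Finset.sum_comm' (s' := fun τ => (cellsS A K b).filter (fun φ => τ \ Z ⊆ φ ∧
      (τ \ Z).card = dimF (projS K φ) + 1))
    (t' := Φ.faces.filter (fun τ => τ ∩ Z = eK K ∧ ¬ τ ⊆ Z ∧ τ.card = (cs τ).card ∧ Q τ))]
  · refine Finset.sum_congr rfl fun τ hτ => ?_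
    obtain ⟨hf, hK, hZ, hc, hm⟩ := Finset.mem_filter.1 hτ
    have hτf := (Fan.mem_faces Φ).1 hf
    have hne : (τ \ Z).Nonempty := by
      rw [Finset.nonempty_iff_ne_empty]
      intro h0
      exact hZ (Finset.sdiff_eq_empty_iff_subset.1 h0)
    obtain ⟨φ, h1, h2, h3, h4⟩ := exists_cell hT hB hτf hK hne hc
    have hset : (cellsS A K b).filter (fun φ => τ \ Z ⊆ φ ∧
      (τ \ Z).card = dimF (projS K φ) + 1) = {φ} := by
      ext ψ
      rw [Finset.mem_filter, Finset.mem_singleton]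
      constructor
      · rintro ⟨g1, g2, g3⟩
        have hi := Fan.IsFace.indep Φ hτf
        exact Finset.Subset.antisymm (cell_sub g1 h1 hi hK hne g2 h2 g3)
          (cell_sub h1 g1 hi hK hne h2 g2 h3)
      · rintro rfl
        exact ⟨h1, h2, h3⟩
    rw [hset, Finset.sum_singleton]
  · intro φ τ
    simp only [Finset.mem_filter]
    constructor
    · rintro ⟨⟨h1, h2, h3⟩, h4, h5, h6, h7⟩
      have hf := (Fan.mem_faces Φ).1 h4
      have hi := Fan.IsFace.indep Φ hf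
      obtain ⟨g1, g2⟩ := cell_conv h1 hi h5 h6 h7 h2
      refine ⟨⟨h1, h6, h7⟩, h4, h5, ?_, g1, (hPQ φ h1 τ hf h5 h6 h7 h2).1 h3⟩
      intro h8
      rw [Finset.sdiff_eq_empty_iff_subset.2 h8] at h7
      simp at h7
    · rintro ⟨⟨h1, h6, h7⟩, h4, h5, h8, h9, h10⟩
      have hf := (Fan.mem_faces Φ).1 h4
      have hi := Fan.IsFace.indep Φ hf
      have hne : (τ \ Z).Nonempty := by
        rw [Finset.nonempty_iff_ne_empty]
        intro h0
        exact h8 (Finset.sdiff_eq_empty_iff_subset.1 h0)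
      obtain ⟨ψ, g1, g2, g3, g4⟩ := exists_cell hT hB hf h5 hne h9
      have heq : φ = ψ := Finset.Subset.antisymm (cell_sub h1 g1 hi h5 hne h6 g2 h7)
          (cell_sub g1 h1 hi h5 hne g2 h6 g3)
      subst heq
      exact ⟨⟨h1, g4, (hPQ φ h1 τ hf h5 h6 h7 g4).2 h10⟩, h4, h5, h6, h7⟩

theorem disj_cs (K : Finset (Fin n)) (A : Finset (Fin n → ℤ)) :
    ∀ i ∈ K, i ∉ cs (projS K A) := by
  intro i hi h
  obtain ⟨w, hw, hwi⟩ := mem_cs94.1 h
  obtain ⟨u, hu, rfl⟩ := mem_projS.1 hw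
  simp [prK, hi] at hwi

theorem cs_eq {Z τ : Finset (Fin n → ℤ)} {K : Finset (Fin n)} (hK : τ ∩ Z = eK K) :
    ∀ i, i ∈ cs τ ↔ i ∈ K ∨ i ∈ cs (projS K (τ \ Z)) := by
  classical
  intro i
  rw [mem_cs94, mem_cs94]
  constructor
  · rintro ⟨u, hu, hui⟩
    by_cases hi : i ∈ K
    · exact Or.inl hi
    · right
      by_cases huZ : u ∈ Z
      · have : u ∈ eK K := by rw [← hK]; exact Finset.mem_inter.2 ⟨hu, huZ⟩
        obtain ⟨k, hk, rfl⟩ := mem_eK.1 this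
        have hik : i ≠ k := fun h => hi (h ▸ hk)
        simp [hik] at hui
      · refine ⟨prK K u, mem_projS.2 ⟨u, Finset.mem_sdiff.2 ⟨hu, huZ⟩, rfl⟩, ?_⟩
        simpa [prK, hi] using hui
  · rintro (hi | ⟨w, hw, hwi⟩)
    · have : (Pi.single i 1 : Fin n → ℤ) ∈ τ ∩ Z := by rw [hK, mem_eK]; exact ⟨i, hi, rfl⟩
      exact ⟨_, (Finset.mem_inter.1 this).1, by simp⟩
    · obtain ⟨u, hu, rfl⟩ := mem_projS.1 hw
      refine ⟨u, (Finset.mem_sdiff.1 hu).1, ?_⟩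
      intro h
      apply hwi
      simp [prK, h]

theorem cs_cell {Z τ φ : Finset (Fin n → ℤ)} {K : Finset (Fin n)} (hτ : Indep τ)
    (hK : τ ∩ Z = eK K) (hsub : τ \ Z ⊆ φ) (hc : (τ \ Z).card = dimF (projS K φ) + 1)
    (hd : dimF (projS K φ) + 1 = (cs (projS K φ)).card) :
    cs (projS K (τ \ Z)) = cs (projS K φ) := by
  have hsub' : projS K (τ \ Z) ⊆ projS K φ := projS_mono hsub
  have e3 := card_projS hτ hK
  have e5 : (projS K (τ \ Z)).card ≤ (cs (projS K (τ \ Z))).card := by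
    refine (indep_projS hτ hK).card_le _ ?_
    intro u hu i hi
    by_contra h
    exact hi (mem_cs94.2 ⟨u, hu, h⟩)
  have hcs : cs (projS K (τ \ Z)) ⊆ cs (projS K φ) := by
    intro i hi
    obtain ⟨u, hu, hui⟩ := mem_cs94.1 hi
    exact mem_cs94.2 ⟨u, hsub' hu, hui⟩
  exact Finset.eq_of_subset_of_card_le hcs (by omega)

theorem toR_dotZ (κ u : Fin n → ℤ) : (fun i => (κ i : ℝ)) ⬝ᵥ toR u = ((κ ⬝ᵥ u : ℤ) : ℝ) := by
  simp [dotProduct]

theorem exp_iff (W : Finset (Fin n)) (κ : Fin n → ℤ) (w : Fin n → ℝ) (N : ℕ) (a : ℝ) :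
    (Complex.exp (2 * Real.pi * Complex.I * (-(a : ℂ)))) ^ N =
      ∏ i ∈ W, (Complex.exp (2 * Real.pi * Complex.I * (-(w i : ℂ)))) ^ κ i ↔
    ∃ z : ℤ, ∑ i ∈ W, (κ i : ℝ) * w i - N * a = z := by
  have h1 : (Complex.exp (2 * Real.pi * Complex.I * (-(a : ℂ)))) ^ N =
      Complex.exp (2 * Real.pi * Complex.I * (-(N * a : ℂ))) := by
    rw [← Complex.exp_nat_mul]
    congr 1
    ring
  have h2 : ∏ i ∈ W, (Complex.exp (2 * Real.pi * Complex.I * (-(w i : ℂ)))) ^ κ i =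
      Complex.exp (2 * Real.pi * Complex.I * (-(∑ i ∈ W, (κ i : ℂ) * w i))) := by
    rw [← Finset.sum_neg_distrib, Finset.mul_sum, Complex.exp_sum]
    refine Finset.prod_congr rfl fun i _ => ?_
    rw [← Complex.exp_int_mul]
    congr 1
    ring
  rw [h1, h2, Complex.exp_eq_exp_iff_exists_int]
  have hpi : (2 * (Real.pi : ℂ) * Complex.I) ≠ 0 := by
    simp [Real.pi_ne_zero]
  constructor
  · rintro ⟨z, hz⟩
    refine ⟨z, ?_⟩
    have h3 : (2 * (Real.pi : ℂ) * Complex.I) * (∑ i ∈ W, (κ i : ℂ) * w i - N * a) =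
        (2 * (Real.pi : ℂ) * Complex.I) * z := by
      linear_combination hz
    have h4 := mul_left_cancel₀ hpi h3
    exact_mod_cast h4
  · rintro ⟨z, hz⟩
    refine ⟨z, ?_⟩
    have h4 : (∑ i ∈ W, (κ i : ℂ) * w i - N * a) = z := by exact_mod_cast hz
    linear_combination (2 * (Real.pi : ℂ) * Complex.I) * h4

/-- The two conditions agree. -/
theorem cond_iff {A Z τ φ : Finset (Fin n → ℤ)} {K : Finset (Fin n)} {b : Fin n → ℝ}
    (hφ : φ ∈ cellsS A K b) (hτ : Indep τ)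
    (hK : τ ∩ Z = eK K) (hsub : τ \ Z ⊆ φ) (hc : (τ \ Z).card = dimF (projS K φ) + 1)
    (hd : dimF (projS K φ) + 1 = (cs (projS K φ)).card) (V : Finset (Fin n)) (w : Fin n → ℝ)
    (a : ℝ) :
    (V \ K ⊆ cs (projS K φ) ∧ ∃ κ : Fin n → ℤ, (∀ i, i ∉ cs (projS K φ) → κ i = 0) ∧
        (∀ v ∈ projS K φ, κ ⬝ᵥ v = (latDist (projS K φ) : ℤ)) ∧
        (Complex.exp (2 * Real.pi * Complex.I * (-(a : ℂ)))) ^ latDist (projS K φ) =
          ∏ i ∈ V \ K, (fun i => Complex.exp (2 * Real.pi * Complex.I * (-(w i : ℂ)))) i ^ κ i) ↔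
    (V ⊆ cs τ ∧ CondR Z V w a τ) := by
  classical
  have hcs := cs_cell hτ hK hsub hc hd
  have hcsτ : ∀ i, i ∈ cs τ ↔ i ∈ K ∨ i ∈ cs (projS K φ) := by
    intro i; rw [cs_eq hK, hcs]
  have hlat := (cell_conv hφ hτ hK hsub hc hd).2
  have hV : V \ K ⊆ cs (projS K φ) ↔ V ⊆ cs τ := by
    constructor
    · intro h i hi
      rw [hcsτ]
      by_cases hiK : i ∈ K
      · exact Or.inl hiK
      · exact Or.inr (h (Finset.mem_sdiff.2 ⟨hi, hiK⟩))
    · intro h i hi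
      obtain ⟨h1, h2⟩ := Finset.mem_sdiff.1 hi
      exact ((hcsτ i).1 (h h1)).resolve_left h2
  have hsum : ∀ κ : Fin n → ℤ, (∀ i ∈ K, κ i = 0) →
      ∑ i ∈ V, (κ i : ℝ) * w i = ∑ i ∈ V \ K, (κ i : ℝ) * w i := by
    intro κ hκ
    symm
    refine Finset.sum_subset Finset.sdiff_subset ?_
    intro i hi hi2
    have : i ∈ K := by
      by_contra h
      exact hi2 (Finset.mem_sdiff.2 ⟨hi, h⟩)
    rw [hκ i this]; simp
  rw [hV]
  refine and_congr_right fun _ => ?_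
  unfold CondR
  constructor
  · rintro ⟨κ, k1, k2, k3⟩
    have kK : ∀ i ∈ K, κ i = 0 := fun i hi => k1 i (disj_cs K φ i hi)
    refine ⟨κ, ?_, ?_, ?_, ?_⟩
    · intro i hi
      exact k1 i (fun h => hi ((hcsτ i).2 (Or.inr h)))
    · intro u hu
      rw [hlat, ← k2 _ (mem_projS.2 ⟨u, hsub hu, rfl⟩), dotZ_prK kK]
    · intro u hu
      rw [hK] at hu
      obtain ⟨i, hi, rfl⟩ := mem_eK.1 hu
      simp [kK i hi]
    · rw [hsum κ kK, hlat]
      exact (exp_iff _ κ w _ a).1 k3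
  · rintro ⟨κ, k1, k2, k3, k4⟩
    have kK : ∀ i ∈ K, κ i = 0 := by
      intro i hi
      have := k3 (Pi.single i 1) (by rw [hK, mem_eK]; exact ⟨i, hi, rfl⟩)
      simpa using this
    refine ⟨κ, ?_, ?_, ?_⟩
    · intro i hi
      by_cases hiK : i ∈ K
      · exact kK i hiK
      · refine k1 i (fun h => ?_)
        exact ((hcsτ i).1 h).elim hiK hi
    · have hne : (τ \ Z).Nonempty := Finset.card_pos.1 (by omega)
      have hne' : (projS K (τ \ Z)).Nonempty := by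
        rw [projS_eq]; exact hne.image _
      have hsub' : projS K (τ \ Z) ⊆ projS K φ := projS_mono hsub
      have e3 := card_projS hτ hK
      have e4 := card_le_dimF (indep_projS hτ hK) hne' (Finset.Subset.refl _)
      have := const_of_dimR hne' hsub' (by omega) (k := fun i => (κ i : ℝ))
        (m := ((latDist (projS K φ) : ℤ) : ℝ)) (by
          intro v hv
          obtain ⟨u, hu, rfl⟩ := mem_projS.1 hv
          rw [toR_dotZ, dotZ_prK kK, k2 u hu, hlat])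
      intro v hv
      have h1 := this v hv
      rw [toR_dotZ] at h1
      exact_mod_cast h1
    · rw [hsum κ kK, hlat] at k4
      exact (exp_iff _ κ w _ a).2 k4

end G11

open G11 in
/-- Packet G11. -/
theorem link (h : CellVol) : Link := by
  classical
  intro k A Z S Φ b hT hB hb hSZ V w a hne
  -- the set of coordinates of the generators of height zero
  set g : Finset (Fin k → ℤ) → Finset (Fin k) :=
    fun τ => univ.filter (fun i => (Pi.single i 1 : Fin k → ℤ) ∈ τ ∩ Z) with hg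
  have hgK : ∀ τ, τ ∩ Z = eK (g τ) := by
    intro τ
    ext u
    rw [mem_eK]
    constructor
    · intro hu
      obtain ⟨i, rfl⟩ := hT.2.2.2.2.2.1.2.1 u (Finset.mem_inter.1 hu).2
      exact ⟨i, by simpa [hg] using hu, rfl⟩
    · rintro ⟨i, hi, rfl⟩
      simpa [hg] using hi
  have heK : ∀ K K' : Finset (Fin k), eK K = eK K' → K = K' := by
    intro K K' hKK
    ext i
    constructor
    · intro hi
      have : (Pi.single i 1 : Fin k → ℤ) ∈ eK K' := by rw [← hKK]; exact mem_eK.2 ⟨i, hi, rfl⟩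
      obtain ⟨j, hj, hji⟩ := mem_eK.1 this
      exact single_inj hji ▸ hj
    · intro hi
      have : (Pi.single i 1 : Fin k → ℤ) ∈ eK K := by rw [hKK]; exact mem_eK.2 ⟨i, hi, rfl⟩
      obtain ⟨j, hj, hji⟩ := mem_eK.1 this
      exact single_inj hji ▸ hj
  unfold multR at hne
  rw [← Finset.sum_fiberwise _ g] at hne
  obtain ⟨K, -, hK⟩ := Finset.exists_ne_zero_of_sum_ne_zero hne
  refine ⟨K, ?_⟩
  -- some simplex occurs
  obtain ⟨τ₀, hτ₀, -⟩ := Finset.exists_ne_zero_of_sum_ne_zero hK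
  obtain ⟨h1, h2⟩ := Finset.mem_filter.1 hτ₀
  have hSτ₀ : S ⊆ eK K := by
    intro u hu
    rw [← h2, ← hgK]
    exact Finset.mem_inter.2 ⟨(Finset.mem_filter.1 h1).2.1 hu, hSZ hu⟩
  unfold multS
  have key := sum_cells h hT hB hb K
    (fun φ => V \ K ⊆ cs (projS K φ) ∧ ∃ κ : Fin k → ℤ, (∀ i, i ∉ cs (projS K φ) → κ i = 0) ∧
        (∀ v ∈ projS K φ, κ ⬝ᵥ v = (latDist (projS K φ) : ℤ)) ∧
        (Complex.exp (2 * Real.pi * Complex.I * (-(a : ℂ)))) ^ latDist (projS K φ) =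
          ∏ i ∈ V \ K, (fun i => Complex.exp (2 * Real.pi * Complex.I * (-(w i : ℂ)))) i ^ κ i)
    (fun τ => V ⊆ cs τ ∧ CondR Z V w a τ)
    (fun φ hφ τ hτ hK hsub hc hd => cond_iff hφ (Fan.IsFace.indep Φ hτ) hK hsub hc hd V w a)
  have key' := key.symm
  intro h0
  apply hK
  have e1 : ∑ τ ∈ Φ.faces.filter (fun τ => τ ∩ Z = eK K ∧ ¬ τ ⊆ Z ∧ τ.card = (cs τ).card ∧
      V ⊆ cs τ ∧ CondR Z V w a τ), (-1 : ℤ) ^ ((τ \ Z).card - 1) * (volZ Z τ : ℤ) = 0 := by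
    rw [← h0]
    refine key'.trans ?_
    refine Finset.sum_congr ?_ fun _ _ => rfl
    ext φ
    simp only [Finset.mem_filter]
  have e2 : (Φ.faces.filter (fun τ => S ⊆ τ ∧ ¬ τ ⊆ Z ∧ τ.card = (cs τ).card ∧ V ⊆ cs τ ∧
      CondR Z V w a τ)).filter (fun τ => g τ = K) =
      Φ.faces.filter (fun τ => τ ∩ Z = eK K ∧ ¬ τ ⊆ Z ∧ τ.card = (cs τ).card ∧
      V ⊆ cs τ ∧ CondR Z V w a τ) := by
    ext τ
    simp only [Finset.mem_filter]
    constructor
    · rintro ⟨⟨a1, a2, a3, a4, a5, a6⟩, a7⟩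
      exact ⟨a1, by rw [hgK τ, a7], a3, a4, a5, a6⟩
    · rintro ⟨a1, a2, a3, a4, a5, a6⟩
      refine ⟨⟨a1, ?_, a3, a4, a5, a6⟩, ?_⟩
      · refine hSτ₀.trans ?_
        rw [← a2]
        exact Finset.inter_subset_left
      · exact heK _ _ (by rw [← hgK τ, a2])
  have e3 : ∀ τ ∈ Φ.faces.filter (fun τ => τ ∩ Z = eK K ∧ ¬ τ ⊆ Z ∧ τ.card = (cs τ).card ∧
      V ⊆ cs τ ∧ CondR Z V w a τ), (-1 : ℤ) ^ (k - τ.card) * (volZ Z τ : ℤ) =
      (-1) ^ (k + K.card + 1) * ((-1 : ℤ) ^ ((τ \ Z).card - 1) * (volZ Z τ : ℤ)) := by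
    intro τ hτ
    obtain ⟨a1, a2, a3, a4, -⟩ := Finset.mem_filter.1 hτ
    have hpos : 0 < (τ \ Z).card := by
      rw [Finset.card_pos, Finset.nonempty_iff_ne_empty]
      intro h0
      exact a3 (Finset.sdiff_eq_empty_iff_subset.1 h0)
    have hcard := card_split a2
    have hle : τ.card ≤ k := by
      rw [a4]
      exact (Finset.card_le_univ _).trans_eq (Fintype.card_fin k)
    rw [← mul_assoc, ← pow_add]
    congr 1
    have hpar : ∀ m m' : ℕ, (m + m') % 2 = 0 → (-1 : ℤ) ^ m = (-1) ^ m' := by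
      intro m m' hmm
      rcases Nat.even_or_odd m with hm | hm
      · have : Even m' := by
          rw [Nat.even_iff] at hm ⊢
          omega
        rw [hm.neg_one_pow, this.neg_one_pow]
      · have : Odd m' := by
          rw [Nat.odd_iff] at hm ⊢
          omega
        rw [hm.neg_one_pow, this.neg_one_pow]
    exact hpar _ _ (by omega)
  have e4 := e3
  rw [show (Finset.filter (fun τ => g τ = K) (Φ.faces.filter (fun τ => S ⊆ τ ∧ ¬ τ ⊆ Z ∧
      τ.card = (cs τ).card ∧ V ⊆ cs τ ∧ CondR Z V w a τ))) = _ from e2,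
    Finset.sum_congr rfl e3, ← Finset.mul_sum, e1, mul_zero]

end Comp

end Mono
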